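import Pool.Agent.Helper57.SS.Goals2

set_option autoImplicit false

namespace Pool.Agent.Helper33.SS

open MeasureTheory ProbabilityTheory Filter Topology
open scoped ComplexConjugate
open Pool.Agent.Helper57.SS

theorem gET : G_ET := by
  intro hKM hREV hAPX hFZ hZP α A m0 μ _ T hE hT f hf hf0
  obtain ⟨hf_meas, hf_bd⟩ := hf
  obtain ⟨hz0, hzn, -, hzadd, hzm, hzmp, -⟩ := hZP α T
  obtain ⟨-, hFzle, -, hFzm, -, -⟩ := hFZ hZP α A T hE
  have hfint : Integrable f μ := by
    refine Integrable.of_bound hf_meas.aestronglyMeasurable 1 ?_
    exact Eventually.of_forall fun x => by simpa [Real.norm_eq_abs] using hf_bd x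
  have key : ∀ B : Set α, MeasurableSet B → (⇑T) ⁻¹' B = B → ∫ x in B, f x ∂μ = 0 := by
    intro B hB hinv
    set v : α → ℝ := B.indicator (fun _ => (1 : ℝ)) with hv
    have hvm : Measurable v := measurable_const.indicator hB
    have hvb : ∀ x, |v x| ≤ 1 := by
      intro x
      by_cases hx : x ∈ B
      · simp [hv, hx]
      · simp [hv, hx]
    have hint : ∫ x in B, f x ∂μ = ∫ x, f x * v x ∂μ := by
      rw [← integral_indicator hB]
      refine integral_congr_ae (Eventually.of_forall fun x => ?_)
      by_cases hx : x ∈ B
      · simp [hv, hx]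
      · simp [hv, hx]
    rw [hint]
    have hiter : ∀ n : ℕ, ∀ x, (⇑T)^[n] x ∈ B ↔ x ∈ B := by
      intro n
      induction n with
      | zero => intro x; rfl
      | succ n ih =>
        intro x
        rw [Function.iterate_succ_apply, ih]
        constructor
        · intro h
          have : x ∈ (⇑T) ⁻¹' B := h
          rwa [hinv] at this
        · intro h
          have : x ∈ (⇑T) ⁻¹' B := by rw [hinv]; exact h
          exact this
    have hbound : ∀ ε : ℝ, 0 < ε → |∫ x, f x * v x ∂μ| ≤ 2 * ε := by
      intro ε hε
      obtain ⟨p, v', hv'm, hv'b, -, hv'e⟩ := hAPX hFZ hZP α A μ T hE v ⟨hvm, hvb⟩ ε hε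
      obtain ⟨D, hD⟩ := hKM hREV hFZ hZP α A μ T hE f ⟨hf_meas, hf_bd⟩ hf0 ε hε
      set m : ℤ := (D : ℤ) + p with hm
      have hw : Measurable[Fz A T D] (fun x => v' (zp T m x)) := by
        have := hFzm (-(p : ℤ)) m v' hv'm
        have e : -(p : ℤ) + m = D := by rw [hm]; ring
        rwa [e] at this
      have h1 := hD _ hw (fun x => hv'b _)
      have hv'meas : Measurable v' := hv'm.mono (hFzle _) le_rfl
      have hvz : ∀ x, v (zp T m x) = v x := by
        intro x
        have e : zp T m x = (⇑T)^[D + p] x := by
          have := hzn (D + p) x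
          rw [← this, hm]
          push_cast
          rfl
        rw [e]
        have := hiter (D + p) x
        by_cases hx : x ∈ B
        · have h2 := this.mpr hx
          simp only [hv, Set.indicator_of_mem hx, Set.indicator_of_mem h2]
        · have h2 : (⇑T)^[D + p] x ∉ B := fun h => hx (this.mp h)
          simp only [hv, Set.indicator_of_notMem hx, Set.indicator_of_notMem h2]
      have hdiff : Integrable (fun x => v x - v' x) μ := by
        refine Integrable.of_bound (hvm.sub hv'meas).aestronglyMeasurable 2 ?_
        refine Eventually.of_forall fun x => ?_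
        rw [Real.norm_eq_abs]
        have h2 := abs_le.mp (hvb x)
        have h3 := abs_le.mp (hv'b x)
        rw [abs_le]
        constructor <;> linarith
      have hmp : MeasurePreserving (zp T m) μ μ := hzmp μ hT m
      have hdz : Integrable (fun x => |v (zp T m x) - v' (zp T m x)|) μ :=
        (hmp.integrable_comp hdiff.abs.aestronglyMeasurable).mpr hdiff.abs
      have hfw : Integrable (fun x => f x * v' (zp T m x)) μ := by
        refine Integrable.of_bound
          (hf_meas.mul (hv'meas.comp (hzm m))).aestronglyMeasurable 1 ?_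
        refine Eventually.of_forall fun x => ?_
        rw [Real.norm_eq_abs, abs_mul]
        exact mul_le_one₀ (hf_bd x) (abs_nonneg _) (hv'b _)
      have hfd : Integrable (fun x => f x * (v (zp T m x) - v' (zp T m x))) μ := by
        refine Integrable.of_bound
          (hf_meas.mul ((hvm.comp (hzm m)).sub (hv'meas.comp (hzm m)))).aestronglyMeasurable 2 ?_
        refine Eventually.of_forall fun x => ?_
        rw [Real.norm_eq_abs, abs_mul]
        have h2 := abs_le.mp (hvb (zp T m x))
        have h3 := abs_le.mp (hv'b (zp T m x))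
        have h4 : |v (zp T m x) - v' (zp T m x)| ≤ 2 := by
          rw [abs_le]
          constructor <;> linarith
        calc |f x| * |v (zp T m x) - v' (zp T m x)| ≤ 1 * 2 :=
            mul_le_mul (hf_bd x) h4 (abs_nonneg _) zero_le_one
          _ = 2 := by norm_num
      have hsplit : ∫ x, f x * v x ∂μ = ∫ x, f x * v' (zp T m x) ∂μ +
          ∫ x, f x * (v (zp T m x) - v' (zp T m x)) ∂μ := by
        rw [← integral_add hfw hfd]
        refine integral_congr_ae (Eventually.of_forall fun x => ?_)
        show f x * v x = f x * v' (zp T m x) + f x * (v (zp T m x) - v' (zp T m x))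
        rw [hvz x]
        ring
      have h5 : |∫ x, f x * (v (zp T m x) - v' (zp T m x)) ∂μ| ≤ ε := by
        have h6 : |∫ x, f x * (v (zp T m x) - v' (zp T m x)) ∂μ| ≤
            ∫ x, |v (zp T m x) - v' (zp T m x)| ∂μ := by
          rw [← Real.norm_eq_abs]
          refine norm_integral_le_of_norm_le hdz (Eventually.of_forall fun x => ?_)
          rw [Real.norm_eq_abs, abs_mul]
          calc |f x| * |v (zp T m x) - v' (zp T m x)| ≤ 1 * |v (zp T m x) - v' (zp T m x)| :=
              mul_le_mul_of_nonneg_right (hf_bd x) (abs_nonneg _)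
            _ = _ := one_mul _
        have h7 : ∫ x, |v (zp T m x) - v' (zp T m x)| ∂μ = ∫ x, |v x - v' x| ∂μ := by
          have h8 := integral_map (μ := μ) hmp.measurable.aemeasurable
            (f := fun x => |v x - v' x|) (by
              rw [hmp.map_eq]; exact hdiff.abs.aestronglyMeasurable)
          rw [hmp.map_eq] at h8
          exact h8.symm
        rw [h7] at h6
        exact h6.trans hv'e
      rw [hsplit]
      refine (abs_add_le _ _).trans ?_
      linarith
    by_contra hne
    have hpos : 0 < |∫ x, f x * v x ∂μ| := abs_pos.mpr hne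
    have := hbound (|∫ x, f x * v x ∂μ| / 4) (by positivity)
    linarith
  have hle : MeasurableSpace.invariants (⇑T) ≤ m0 := MeasurableSpace.invariants_le _
  have h0 : (0 : α → ℝ) =ᵐ[μ] μ[f | MeasurableSpace.invariants (⇑T)] := by
    refine ae_eq_condExp_of_forall_setIntegral_eq hle hfint ?_ ?_ ?_
    · intro s _ _
      exact integrableOn_zero
    · intro s hs _
      rw [MeasurableSpace.measurableSet_invariants] at hs
      rw [key s hs.1 hs.2]
      simp
    · exact (stronglyMeasurable_zero).aestronglyMeasurable
  exact h0.symm

end Pool.Agent.Helper33.SS
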