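import Pool.Agent.Helper57.SS.Goals

set_option autoImplicit false

namespace Pool.Agent.Helper33.SS

open MeasureTheory ProbabilityTheory Filter Topology
open scoped ComplexConjugate
open Pool.Agent.Helper57.SS

lemma fourier_add_pt (n : ℤ) (x y : Ci) : fourier n (x + y) = fourier n x * fourier n y := by
  simp only [fourier_apply, smul_add, AddCircle.toCircle_add, Circle.coe_mul]

/-- Transport of the bound under an injective-type reindexing. -/
lemma bound_map (φ : ℤ × ℤ → ℂ) (m : ℤ × ℤ → ℤ × ℤ) (Θ : Measure (Ci × Ci)) (C : ℝ)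
    (g : ℤ × ℤ → ℤ × ℤ) (hg : ∀ q, g (m q) = q)
    (h : ∀ c : (ℤ × ℤ) →₀ ℂ, ‖c.sum fun p u => u * φ p‖ ^ 2 ≤
      C * ∫ z, ‖c.sum fun p u => u * e2 (g p) z‖ ^ 2 ∂Θ) (c : (ℤ × ℤ) →₀ ℂ) :
    ‖c.sum fun q u => u * φ (m q)‖ ^ 2 ≤ C * ∫ z, ‖c.sum fun q u => u * e2 q z‖ ^ 2 ∂Θ := by
  have h1 := h (c.mapDomain m)
  have e1 : (c.mapDomain m).sum (fun p u => u * φ p) = c.sum fun q u => u * φ (m q) :=
    Finsupp.sum_mapDomain_index (fun b => zero_mul _) (fun b u v => add_mul _ _ _)
  have e2' : ∀ z, (c.mapDomain m).sum (fun p u => u * e2 (g p) z) =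
      c.sum fun q u => u * e2 q z := by
    intro z
    rw [Finsupp.sum_mapDomain_index (fun b => zero_mul _) (fun b u v => add_mul _ _ _)]
    simp only [hg]
  rw [e1] at h1
  simp only [e2'] at h1
  exact h1

lemma ac_restrict {μ : Measure (Ci × Ci)} {ν1 ν2 : Measure Ci} [IsFiniteMeasure ν1]
    [IsFiniteMeasure ν2] {D : Set Ci} (hD : MeasurableSet D) (h : μ ≪ ν1.prod ν2)
    (h0 : μ (Prod.fst ⁻¹' D) = 0) : μ ≪ (ν1.restrict Dᶜ).prod ν2 := by
  have e1 : (ν1.restrict Dᶜ).prod ν2 = (ν1.prod ν2).restrict (Dᶜ ×ˢ Set.univ) := by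
    rw [← Measure.prod_restrict, Measure.restrict_univ]
  rw [e1]
  intro E hE
  rw [Measure.restrict_apply' (hD.compl.prod MeasurableSet.univ)] at hE
  have h2 : μ (E ∩ Dᶜ ×ˢ Set.univ) = 0 := h hE
  have h3 : E ⊆ (E ∩ Dᶜ ×ˢ Set.univ) ∪ (Prod.fst ⁻¹' D) := by
    rintro ⟨x, y⟩ hz
    by_cases hx : x ∈ D
    · right; exact hx
    · left; exact ⟨hz, hx, trivial⟩
  exact measure_mono_null h3 (measure_union_null h2 h0)

theorem gMMA : G_MMA := by
  intro hLH hREP hUNI hACL hATM σ1 σ2 σ3 _ _ _ φ C h1 h2 h3 hs hat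
  obtain ⟨ρ, hρ, hφ⟩ := hREP (σ1.prod σ2) φ C h1
  obtain ⟨ρ', hρ', hφ'⟩ := hREP (σ1.prod σ3) (fun q => φ (q.1 + q.2, q.2)) C
    (bound_map φ (fun q => (q.1 + q.2, q.2)) (σ1.prod σ3) C (fun p => (p.1 - p.2, p.2))
      (fun q => by simp) h2)
  obtain ⟨ρ'', hρ'', hφ''⟩ := hREP (σ2.prod σ3) (fun q => φ (q.2, q.1 + q.2)) C
    (bound_map φ (fun q => (q.2, q.1 + q.2)) (σ2.prod σ3) C (fun p => (p.2 - p.1, p.1))
      (fun q => by simp) h3)
  have hi : Integrable ρ (σ1.prod σ2) := hρ.integrable one_le_two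
  have hi' : Integrable ρ' (σ1.prod σ3) := hρ'.integrable one_le_two
  have hi'' : Integrable ρ'' (σ2.prod σ3) := hρ''.integrable one_le_two
  set τ : Measure (Ci × Ci) := (σ1.prod σ2).withDensity fun z => ‖ρ z‖ₑ with hτ
  have hAm : Measurable (fun z : Ci × Ci => (z.1, z.1 + z.2)) := by fun_prop
  have hBm : Measurable (fun z : Ci × Ci => (z.1, z.2 - z.1)) := by fun_prop
  have hA'm : Measurable (fun z : Ci × Ci => (z.2, z.1 + z.2)) := by fun_prop
  have hB'm : Measurable (fun z : Ci × Ci => (z.2 - z.1, z.1)) := by fun_prop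
  have ac2 : τ.map (fun z => (z.1, z.1 + z.2)) ≪ σ1.prod σ3 := by
    refine hACL hUNI (σ1.prod σ2) (σ1.prod σ3) (fun z => (z.1, z.1 + z.2))
      (fun z => (z.1, z.2 - z.1)) ρ ρ' hAm hBm (fun z => by simp) hi hi' fun q => ?_
    rw [← hφ' q, hφ (q.1 + q.2, q.2)]
    refine integral_congr_ae (Eventually.of_forall fun z => ?_)
    simp only [e2, fourier_add_pt, fourier_add]
    ring
  have ac3 : τ.map (fun z => (z.2, z.1 + z.2)) ≪ σ2.prod σ3 := by
    refine hACL hUNI (σ1.prod σ2) (σ2.prod σ3) (fun z => (z.2, z.1 + z.2))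
      (fun z => (z.2 - z.1, z.1)) ρ ρ'' hA'm hB'm (fun z => by simp) hi hi'' fun q => ?_
    rw [← hφ'' q, hφ (q.2, q.1 + q.2)]
    refine integral_congr_ae (Eventually.of_forall fun z => ?_)
    simp only [e2, fourier_add_pt, fourier_add]
    ring
  have : IsFiniteMeasure τ := by
    refine isFiniteMeasure_withDensity ?_
    exact hi.2.ne
  have ac1 : τ ≪ σ1.prod σ2 := withDensity_absolutelyContinuous _ _
  -- the atoms
  set D : Set Ci := {θ | 0 < σ1 {θ}} with hD
  have hDc : D.Countable := by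
    have := Measure.countable_meas_pos_of_disjoint_iUnion (μ := σ1) (As := fun θ : Ci => {θ})
      (fun θ => measurableSet_singleton θ)
      (fun a b hab => by simpa using hab)
    exact this
  have hDm : MeasurableSet D := hDc.measurableSet
  have hτD : τ (Prod.fst ⁻¹' D) = 0 := by
    have e : (Prod.fst ⁻¹' D : Set (Ci × Ci)) = ⋃ θ ∈ D, Prod.fst ⁻¹' {θ} := by
      ext z; simp
    rw [e, measure_biUnion_null_iff hDc]
    intro θ hθ
    have h4 := (hat θ).resolve_left (ne_of_gt hθ)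
    exact hATM hUNI σ1 σ2 ρ φ θ hi hφ h4
  set σ1' : Measure Ci := σ1.restrict Dᶜ with hσ1'
  have ac1' : τ ≪ σ1'.prod σ2 := ac_restrict hDm ac1 hτD
  have ac2' : τ.map (fun z => (z.1, z.1 + z.2)) ≪ σ1'.prod σ3 := by
    refine ac_restrict hDm ac2 ?_
    rw [Measure.map_apply hAm (measurable_fst hDm)]
    exact hτD
  have hno : ∀ z, σ1' {z} = 0 := by
    intro z
    rw [hσ1', Measure.restrict_apply (measurableSet_singleton z)]
    by_cases hz : z ∈ D
    · have : ({z} ∩ Dᶜ : Set Ci) = ∅ := by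
        ext w
        simp only [Set.mem_inter_iff, Set.mem_singleton_iff, Set.mem_compl_iff,
          Set.mem_empty_iff_false, iff_false, not_and, not_not]
        rintro rfl
        exact hz
      rw [this, measure_empty]
    · have h5 : σ1 {z} = 0 := by
        by_contra h6
        exact hz (pos_iff_ne_zero.mpr h6)
      exact measure_mono_null Set.inter_subset_left h5
  have hsing : σ1' ⟂ₘ volume := hs.mono_ac (Measure.absolutelyContinuous_of_le Measure.restrict_le_self)
    (Measure.AbsolutelyContinuous.refl _)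
  have hsw : Measurable (Prod.swap : Ci × Ci → Ci × Ci) := measurable_swap
  have key : τ.map Prod.swap = 0 := by
    refine hLH σ2 σ1' σ3 (τ.map Prod.swap) ?_ ?_ ?_ hno hsing
    · have := ac1'.map hsw
      rwa [Measure.prod_swap] at this
    · rw [Measure.map_map hAm hsw]
      have e : ((fun z : Ci × Ci => (z.1, z.1 + z.2)) ∘ Prod.swap) =
          fun z : Ci × Ci => (z.2, z.1 + z.2) := by
        funext z; simp [add_comm]
      rw [e]
      exact ac3
    · rw [Measure.map_map hA'm hsw]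
      have e : ((fun z : Ci × Ci => (z.2, z.1 + z.2)) ∘ Prod.swap) =
          fun z : Ci × Ci => (z.1, z.1 + z.2) := by
        funext z; simp [add_comm]
      rw [e]
      exact ac2'
  have hτ0 : τ = 0 := by
    have h6 : τ Set.univ = 0 := by
      have : τ.map Prod.swap Set.univ = 0 := by rw [key]; rfl
      rwa [Measure.map_apply hsw MeasurableSet.univ, Set.preimage_univ] at this
    exact Measure.measure_univ_eq_zero.mp h6
  rw [hτ, withDensity_eq_zero_iff hi.1.enorm] at hτ0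
  intro p
  rw [hφ p]
  refine integral_eq_zero_of_ae ?_
  filter_upwards [hτ0] with z hz
  have : ρ z = 0 := by simpa using hz
  simp [this]

end Pool.Agent.Helper33.SS
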